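import Pool.Agent.H24.OrdB

set_option autoImplicit false

namespace Pool.Agent.Results.MP_5ab9c0_an.Cex

open Pool.Agent.H24.OrdB Filter Topology

abbrev X := C(OnePoint ℕ, ℝ) × ℝ

def K : Set X := {p | (∀ t, 0 ≤ p.1 t) ∧ p.2 ≤ p.1 OnePoint.infty ∧ -p.2 ≤ p.1 OnePoint.infty}

lemma cone : IsCone K where
  closed := by
    have : K = (⋂ t, {p : X | 0 ≤ p.1 t}) ∩ ({p : X | p.2 ≤ p.1 OnePoint.infty} ∩
        {p : X | -p.2 ≤ p.1 OnePoint.infty}) := by ext p; simp [K]
    rw [this]
    exact (isClosed_iInter fun t => isClosed_le continuous_const (by fun_prop)).inter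
      ((isClosed_le (by fun_prop) (by fun_prop)).inter (isClosed_le (by fun_prop) (by fun_prop)))
  add := by
    rintro x ⟨a, b, c⟩ y ⟨a', b', c'⟩
    exact ⟨fun t => add_nonneg (a t) (a' t), by simp; linarith, by simp; linarith⟩
  smul := by
    rintro r hr x ⟨a, b, c⟩
    exact ⟨fun t => mul_nonneg hr (a t), by simpa using mul_le_mul_of_nonneg_left b hr,
      by simpa using mul_le_mul_of_nonneg_left c hr⟩
  pointed := by
    ext p
    simp only [K, Set.mem_inter_iff, Set.mem_neg, Set.mem_ofPred_eq, Set.mem_singleton_iff]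
    constructor
    · rintro ⟨⟨a, b, c⟩, a', b', c'⟩
      simp at a' b' c'
      have h : ∀ t, p.1 t = 0 := fun t => le_antisymm (a' t) (a t)
      have := h OnePoint.infty
      ext t
      · exact h t
      · simp; linarith
    · rintro rfl; simp

noncomputable def ind (S : Set ℕ) (hS : S.Finite) : C(OnePoint ℕ, ℝ) :=
  OnePoint.continuousMapMkNat (S.indicator 1) 0 (by
    refine tendsto_const_nhds.congr' ?_
    rw [← Nat.cofinite_eq_atTop]
    filter_upwards [hS.compl_mem_cofinite] with n hn
    simp [Set.indicator_of_notMem hn])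

lemma ind_coe (S : Set ℕ) (hS : S.Finite) (n : ℕ) : ind S hS n = S.indicator 1 n := rfl
lemma ind_inf (S : Set ℕ) (hS : S.Finite) : ind S hS OnePoint.infty = 0 := rfl

lemma conv {J : Type*} [Preorder J] (x : J → X) (hx : ∀ j k, j ≤ k → Le K (x j) (x k)) (s : X)
    (hs : IsSup K x s) (φ : X → ℝ) (e : X) (hφ : ∀ a b, φ (a - b) = φ a - φ b)
    (h0 : ∀ a ∈ K, 0 ≤ φ a) (he : -e ∉ K)
    (h1 : ∀ a ∈ K, ∀ ε : ℝ, 0 < ε → ε ≤ φ a → a - ε • e ∈ K) [Nonempty J] [IsDirectedOrder J] :
    Tendsto (fun j => φ (s - x j)) atTop (𝓝 0) := by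
  rw [tendsto_order]
  refine ⟨fun a ha => Eventually.of_forall fun j => ha.trans_le (h0 _ (hs.1 j)), fun ε hε => ?_⟩
  by_cases h : ∃ j, φ (s - x j) < ε
  · obtain ⟨j, hj⟩ := h
    filter_upwards [eventually_ge_atTop j] with k hk
    have := h0 _ (hx j k hk)
    rw [hφ] at *
    linarith
  · push Not at h
    have := hs.2 (s - ε • e) fun j => by
      have := h1 _ (hs.1 j) ε hε (h j)
      unfold Le; convert this using 1; abel
    have h2 := cone.smul ε⁻¹ (by positivity) _ this
    exact (he (by convert h2 using 1; simp [smul_smul, hε.ne'])).elim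

universe u

theorem result : ∃ (X : Type) (_ : NormedAddCommGroup X) (_ : NormedSpace ℝ X) (_ : CompleteSpace X)
    (K : Set X), IsCone K ∧
    (∀ (J : Type u) [Preorder J] [Nonempty J] [IsDirectedOrder J] (x : J → X) (s : X),
      (∀ j k, j ≤ k → Le K (x j) (x k)) → IsSup K x s → Tendsto x atTop (𝓝 s)) ∧
    ∃ x : ℕ → X, (∀ n, Le K (x n) (x (n + 1))) ∧ (∃ u, ∀ n, Le K (x n) u) ∧
      ¬∃ s, Tendsto x atTop (𝓝 s) := by
  refine ⟨X, inferInstance, inferInstance, inferInstance, K, cone, ?_,
    fun n => (ind (Set.Iio n) (Set.finite_Iio n), 0), ?_, ⟨(1, 0), ?_⟩, ?_⟩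
  · intro J _ _ _ x s hx hs
    have p := conv x hx s hs (fun a => a.1 OnePoint.infty + a.2) (0, 1 / 2) (by intros; simp; ring)
      (fun a ha => by linarith [ha.2.2]) (fun h => by have := h.2.2; norm_num at this)
      (fun a ha ε h1 h2 => ⟨by simpa using ha.1, by simp; linarith [ha.2.1], by simp; linarith⟩)
    have q := conv x hx s hs (fun a => a.1 OnePoint.infty - a.2) (0, -1 / 2) (by intros; simp; ring)
      (fun a ha => by linarith [ha.2.1]) (fun h => by have := h.2.1; norm_num at this)
      (fun a ha ε h1 h2 => ⟨by simpa using ha.1, by simp; linarith, by simp; linarith [ha.2.2]⟩)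
    have r : ∀ t, Tendsto (fun j => (s - x j).1 t) atTop (𝓝 0) := by
      intro t
      induction t using OnePoint.rec with
      | infty => simpa using (p.add q).div_const 2
      | coe n =>
        refine conv x hx s hs (fun a => a.1 n) (ind {n} (Set.finite_singleton n), 0)
          (by intros; simp) (fun a ha => ha.1 n) (fun h => by
            have := h.1 n; norm_num [ind_coe] at this) fun a ha ε h1 h2 =>
          ⟨fun t => ?_, by simpa [ind_inf] using ha.2.1, by simpa [ind_inf] using ha.2.2⟩
        induction t using OnePoint.rec with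
        | infty => simpa [ind_inf] using ha.1 _
        | coe m =>
          by_cases hm : m = n
          · subst hm; simpa [ind_coe] using h2
          · simpa [ind_coe, hm] using ha.1 _
    have r1 : Tendsto (fun j => (x j).1) atTop (𝓝 s.1) := by
      refine ContinuousMap.tendsto_of_monotone_of_pointwise (fun j k hjk t => ?_) fun t => ?_
      · simpa using (hx j k hjk).1 t
      · simpa using (r t).const_sub (s.1 t)
    have r2 : Tendsto (fun j => (x j).2) atTop (𝓝 s.2) := by
      have := ((p.sub q).div_const 2).const_sub s.2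
      simpa using this
    exact r1.prodMk_nhds r2
  · intro n
    refine ⟨fun t => ?_, by simp [ind_inf], by simp [ind_inf]⟩
    induction t using OnePoint.rec with
    | infty => simp [ind_inf]
    | coe m =>
      simpa [ind_coe] using Set.indicator_le_indicator_of_subset (f := (1 : ℕ → ℝ))
        (Set.Iio_subset_Iio (Nat.le_succ n)) (fun _ => zero_le_one) m
  · intro n
    refine ⟨fun t => ?_, by simp [ind_inf], by simp [ind_inf]⟩
    induction t using OnePoint.rec with
    | infty => simp [ind_inf]
    | coe m => by_cases h : m < n <;> simp [ind_coe, h]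
  · rintro ⟨s, hs⟩
    obtain ⟨N, hN⟩ := Metric.cauchySeq_iff'.mp hs.cauchySeq 1 one_pos
    have h1 := hN (N + 1) (by omega)
    rw [Prod.dist_eq] at h1
    have h2 := ((ContinuousMap.dist_apply_le_dist (N : OnePoint ℕ)).trans (le_max_left _ _)).trans_lt h1
    simp [ind_coe] at h2

end Pool.Agent.Results.MP_5ab9c0_an.Cex
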